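import Mathlib
import Pool.Agent.Q35.EO.Stm2
import Pool.Agent.H691R3.PrimeSum

/-!
Project EO, job MOBK: the inversion of Moebius for ideals.

The inversion is done with finite sets `T` of primes: the squarefree ideal `idl T` is the product of the
elements of `T`, and the sum of `(-1) ^ |T|` over the `T` with `idl T ∣ 𝔠` is one if `𝔠 = (1)` and zero
otherwise.
-/

set_option autoImplicit false

namespace Pool.Agent.Q280.EO

open Filter Topology NumberField IsDedekindDomain Finset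
open Pool.Agent.Q35.MM (Pts)
open Pool.Agent.Q35.SM (Vs)
open Pool.Agent.Q35.EO (YU hh S_MOBK)
open Pool.Agent.H691R3 (nm nm_summable)

section Summation

theorem one_le_prod' {ι : Type} (s : Finset ι) {f : ι → ℝ} (h : ∀ i ∈ s, 1 ≤ f i) : 1 ≤ ∏ i ∈ s, f i := by
  classical
  induction s using Finset.induction_on with
  | empty => simp
  | insert a s ha ih =>
    rw [Finset.prod_insert ha]
    exact one_le_mul_of_one_le_of_one_le (h a (mem_insert_self a s))
      (ih fun i hi => h i (mem_insert_of_mem hi))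

theorem summable_fam {ι α : Type} [Fintype ι] [DecidableEq ι] {g : α → ℝ} (h0 : ∀ a, 0 ≤ g a)
    (h : Summable g) : Summable (fun T : ι → α => ∏ l, g (T l)) := by
  classical
  refine summable_of_sum_le (fun T => prod_nonneg fun l _ => h0 _) (c := ∏ _l : ι, ∑' a, g a)
    (fun F => ?_)
  calc ∑ T ∈ F, ∏ l, g (T l)
      ≤ ∑ T ∈ Fintype.piFinset (fun l => F.image (fun T => T l)), ∏ l, g (T l) := by
        refine sum_le_sum_of_subset_of_nonneg (fun T hT => ?_) (fun T _ _ => prod_nonneg fun l _ => h0 _)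
        rw [Fintype.mem_piFinset]
        exact fun l => mem_image_of_mem _ hT
    _ = ∏ l, ∑ a ∈ F.image (fun T => T l), g a := (Finset.prod_univ_sum _ _).symm
    _ ≤ ∏ _l : ι, ∑' a, g a :=
        prod_le_prod (fun l _ => sum_nonneg fun a _ => h0 a)
          (fun l _ => h.sum_le_tsum _ (fun a _ => h0 a))

/-- the growth of a counting function, uniformly -/
theorem growth {N : ℝ → ℝ} {k : ℕ} {R : ℝ} (hmono : Monotone N) (h0 : ∀ B, 0 ≤ N B)
    (h1 : ∀ B, B < 1 → N B = 0)
    (hlim : Tendsto (fun B : ℝ => N B / (B * Real.log B ^ k)) atTop (𝓝 R)) :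
    ∃ C : ℝ, 0 ≤ C ∧ ∀ B q : ℝ, Real.exp 1 ≤ B → 1 ≤ q → N (B / q) ≤ C * (1 / q) * (B * Real.log B ^ k) := by
  have hev : ∀ᶠ B : ℝ in atTop, N B / (B * Real.log B ^ k) < |R| + 1 :=
    hlim.eventually_lt_const (lt_of_le_of_lt (le_abs_self R) (lt_add_one _))
  obtain ⟨B1, hB1'⟩ := eventually_atTop.mp hev
  obtain ⟨B0, hB0, hB1⟩ : ∃ B0, Real.exp 1 ≤ B0 ∧ ∀ B ≥ B0, N B / (B * Real.log B ^ k) < |R| + 1 :=
    ⟨max (Real.exp 1) B1, le_max_left _ _, fun B hB => hB1' B ((le_max_right _ _).trans hB)⟩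
  refine ⟨|R| + 1 + N B0, by have := h0 B0; positivity, fun B q hB hq => ?_⟩
  have hBpos : 0 < B := lt_of_lt_of_le (Real.exp_pos 1) hB
  have hqpos : 0 < q := by linarith
  have hlogB : 1 ≤ Real.log B := by
    rw [Real.le_log_iff_exp_le hBpos]
    exact hB
  have hpow : 1 ≤ Real.log B ^ k := one_le_pow₀ hlogB
  have hq' : B / q ≤ B := div_le_self hBpos.le hq
  have e : ∀ c : ℝ, c * (1 / q) * (B * Real.log B ^ k) = c * (B / q * Real.log B ^ k) := fun c => by
    field_simp
  rw [e]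
  rcases lt_or_ge (B / q) 1 with h | h
  · rw [h1 _ h]
    have := h0 B0
    positivity
  rcases lt_or_ge (B / q) B0 with h' | h'
  · have h2 : 1 ≤ B / q * Real.log B ^ k := one_le_mul_of_one_le_of_one_le h hpow
    calc N (B / q) ≤ N B0 := hmono h'.le
      _ ≤ (|R| + 1 + N B0) * 1 := by have := abs_nonneg R; linarith
      _ ≤ (|R| + 1 + N B0) * (B / q * Real.log B ^ k) := by
        refine mul_le_mul_of_nonneg_left h2 ?_
        have := h0 B0
        positivity
  · have h3 := hB1 (B / q) h'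
    have hlog : 1 ≤ Real.log (B / q) := by
      rw [Real.le_log_iff_exp_le (by positivity)]
      exact hB0.trans h'
    rw [div_lt_iff₀ (by positivity)] at h3
    have h4 : Real.log (B / q) ^ k ≤ Real.log B ^ k :=
      pow_le_pow_left₀ (by linarith) (Real.log_le_log (by positivity) hq') k
    calc N (B / q) ≤ (|R| + 1) * (B / q * Real.log (B / q) ^ k) := h3.le
      _ ≤ (|R| + 1) * (B / q * Real.log B ^ k) := by gcongr
      _ ≤ (|R| + 1 + N B0) * (B / q * Real.log B ^ k) := by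
        refine mul_le_mul_of_nonneg_right ?_ (by positivity)
        linarith [h0 B0]

theorem lim_div {N : ℝ → ℝ} {k : ℕ} {R q : ℝ} (hq : 1 ≤ q)
    (hlim : Tendsto (fun B : ℝ => N B / (B * Real.log B ^ k)) atTop (𝓝 R)) :
    Tendsto (fun B : ℝ => N (B / q) / (B * Real.log B ^ k)) atTop (𝓝 (R * (1 / q))) := by
  have hqpos : 0 < q := by linarith
  have h1 : Tendsto (fun B : ℝ => B / q) atTop atTop := tendsto_id.atTop_div_const hqpos
  have h2 := hlim.comp h1
  have h3 : Tendsto (fun B : ℝ => Real.log (B / q) / Real.log B) atTop (𝓝 1) := by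
    have h4 : Tendsto (fun B : ℝ => 1 - Real.log q / Real.log B) atTop (𝓝 (1 - 0)) :=
      tendsto_const_nhds.sub (Real.tendsto_log_atTop.const_div_atTop _)
    rw [sub_zero] at h4
    refine h4.congr' ?_
    filter_upwards [eventually_ge_atTop (Real.exp 1)] with B hB
    have hBpos : 0 < B := lt_of_lt_of_le (Real.exp_pos 1) hB
    have hlogB : 1 ≤ Real.log B := by
      rw [Real.le_log_iff_exp_le hBpos]
      exact hB
    rw [Real.log_div hBpos.ne' hqpos.ne', sub_div, div_self (by linarith)]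
  have h5 := (h2.mul (tendsto_const_nhds (x := 1 / q))).mul (h3.pow k)
  rw [one_pow, mul_one] at h5
  refine h5.congr' ?_
  filter_upwards [eventually_gt_atTop (Real.exp 1), h1.eventually_gt_atTop (Real.exp 1)] with B hB hB'
  have hBpos : 0 < B := (Real.exp_pos 1).trans hB
  have hlogB : 0 < Real.log B := Real.log_pos (lt_trans (by
    have := Real.add_one_lt_exp (x := 1) (by norm_num)
    linarith) hB)
  have hlogB' : 0 < Real.log (B / q) := Real.log_pos (lt_trans (by
    have := Real.add_one_lt_exp (x := 1) (by norm_num)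
    linarith) hB')
  simp only [Function.comp_apply]
  rw [div_pow]
  field_simp

end Summation

section Ideals

variable {K : Type} [Field K] [NumberField K]

/-- the product of the elements of a finite set of primes -/
noncomputable def idl (T : Finset (HeightOneSpectrum (𝓞 K))) : Ideal (𝓞 K) := ∏ v ∈ T, v.asIdeal

omit [NumberField K] in
theorem idl_ne (T : Finset (HeightOneSpectrum (𝓞 K))) : idl T ≠ ⊥ :=
  Finset.prod_ne_zero_iff.mpr fun v _ => v.ne_bot

theorem idl_dvd_iff (T : Finset (HeightOneSpectrum (𝓞 K))) {𝔠 : Ideal (𝓞 K)} :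
    idl T ∣ 𝔠 ↔ ∀ v ∈ T, v.asIdeal ∣ 𝔠 := by
  constructor
  · exact fun h v hv => (Finset.dvd_prod_of_mem _ hv).trans h
  · intro h
    refine Finset.prod_dvd_of_coprime (fun v _ w _ hvw => ?_) h
    refine Ideal.isCoprime_iff_sup_eq.mpr ?_
    have hv := v.isMaximal
    have hw := w.isMaximal
    exact hv.coprime_of_ne hw fun h => hvw (HeightOneSpectrum.ext h)

/-- the primes dividing a nonzero ideal -/
noncomputable def D (𝔠 : Ideal (𝓞 K)) : Finset (HeightOneSpectrum (𝓞 K)) := by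
  classical
  exact if h : 𝔠 ≠ ⊥ then (Ideal.finite_factors h).toFinset else ∅

theorem mem_D {𝔠 : Ideal (𝓞 K)} (h : 𝔠 ≠ ⊥) {v : HeightOneSpectrum (𝓞 K)} :
    v ∈ D 𝔠 ↔ v.asIdeal ∣ 𝔠 := by
  unfold D
  rw [dif_pos h, Set.Finite.mem_toFinset]
  rfl

theorem D_empty {𝔠 : Ideal (𝓞 K)} (h : 𝔠 ≠ ⊥) : D 𝔠 = ∅ ↔ 𝔠 = 1 := by
  constructor
  · intro h1
    by_contra h2
    obtain ⟨P, hP, hP'⟩ := Ideal.exists_le_maximal 𝔠 (by rwa [← Ideal.one_eq_top])
    have hP0 : P ≠ ⊥ := fun h3 => h (le_bot_iff.mp (h3 ▸ hP'))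
    have : (⟨P, hP.isPrime, hP0⟩ : HeightOneSpectrum (𝓞 K)) ∈ D 𝔠 :=
      (mem_D h).mpr (Ideal.dvd_iff_le.mpr hP')
    rw [h1] at this
    exact absurd this (notMem_empty _)
  · rintro rfl
    refine eq_empty_of_forall_notMem fun v hv => ?_
    rw [mem_D h] at hv
    exact v.isPrime.ne_top (by rw [← Ideal.one_eq_top]; exact (isUnit_of_dvd_one hv |> Ideal.isUnit_iff.mp).trans Ideal.one_eq_top.symm)

theorem sum_sign {𝔠 : Ideal (𝓞 K)} (h : 𝔠 ≠ ⊥) [Decidable (𝔠 = 1)] :
    ∑ T ∈ (D 𝔠).powerset, (-1 : ℝ) ^ T.card = if 𝔠 = 1 then 1 else 0 := by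
  classical
  have h1 := Finset.sum_powerset_neg_one_pow_card (x := D 𝔠)
  have h2 : ∑ T ∈ (D 𝔠).powerset, (-1 : ℝ) ^ T.card = ((∑ T ∈ (D 𝔠).powerset, (-1 : ℤ) ^ T.card : ℤ) : ℝ) := by
    push_cast
    rfl
  rw [h2, h1]
  by_cases h3 : 𝔠 = 1
  · rw [if_pos ((D_empty h).mpr h3), if_pos h3]
    norm_num
  · rw [if_neg fun h4 => h3 ((D_empty h).mp h4), if_neg h3]
    norm_num

theorem absNorm_idl (T : Finset (HeightOneSpectrum (𝓞 K))) :
    (Ideal.absNorm (idl T) : ℝ) = ∏ v ∈ T, (nm v : ℝ) := by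
  unfold idl
  rw [map_prod, Nat.cast_prod]
  rfl

theorem one_le_absNorm {I : Ideal (𝓞 K)} (h : I ≠ ⊥) : (1 : ℝ) ≤ (Ideal.absNorm I : ℝ) := by
  have h1 : Ideal.absNorm I ≠ 0 := Ideal.absNorm_ne_zero_iff_mem_nonZeroDivisors.mpr
    (mem_nonZeroDivisors_of_ne_zero h)
  exact_mod_cast Nat.one_le_iff_ne_zero.mpr h1

theorem summable_idl : Summable fun T : Finset (HeightOneSpectrum (𝓞 K)) =>
    ((Ideal.absNorm (idl T) : ℝ)⁻¹) ^ 2 := by
  have h1 : Summable (fun v : HeightOneSpectrum (𝓞 K) => ((nm v : ℝ)⁻¹) ^ 2) := by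
    refine (nm_summable (K := K) (x := 2) (by norm_num)).congr fun v => ?_
    rw [Real.rpow_neg (by positivity), inv_pow]
    norm_num
  have h2 := summable_finsetProd_of_summable_nonneg (fun v => by positivity) h1
  refine h2.congr fun T => ?_
  rw [absNorm_idl, ← Finset.prod_inv_distrib, ← Finset.prod_pow]

end Ideals

section Main

variable {K : Type} [Field K] [NumberField K] {ι : Type} [Fintype ι] [DecidableEq ι]

/-- families of finite sets of primes -/
abbrev Fml (K : Type) [Field K] [NumberField K] (ι : Type) : Type :=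
  ι → Finset (HeightOneSpectrum (𝓞 K))

/-- the weight of a family -/
noncomputable def wt (r : ι → ℕ) (T : Fml K ι) : ℝ := ∏ l, (Ideal.absNorm (idl (T l)) : ℝ) ^ r l

/-- the sign of a family -/
def sg (T : Fml K ι) : ℝ := ∏ l, (-1 : ℝ) ^ (T l).card

omit [DecidableEq ι] in
theorem abs_sg (T : Fml K ι) : |sg T| = 1 := by
  unfold sg
  rw [Finset.abs_prod]
  simp

omit [DecidableEq ι] in
theorem one_le_wt (r : ι → ℕ) (T : Fml K ι) : 1 ≤ wt r T :=
  one_le_prod' _ fun _ _ => one_le_pow₀ (one_le_absNorm (idl_ne _))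

theorem summable_wt {r : ι → ℕ} (hr : ∀ l, 2 ≤ r l) : Summable fun T : Fml K ι => 1 / wt r T := by
  refine Summable.of_nonneg_of_le (fun T => by have := one_le_wt r T; positivity) (fun T => ?_)
    (summable_fam (ι := ι) (fun T => by positivity) (summable_idl (K := K)))
  unfold wt
  rw [one_div, ← Finset.prod_inv_distrib]
  refine prod_le_prod (fun l _ => by positivity) (fun l _ => ?_)
  rw [← inv_pow]
  exact pow_le_pow_of_le_one (by positivity) (inv_le_one_of_one_le₀ (one_le_absNorm (idl_ne _))) (hr l)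

variable {n : ι → ℕ}

/-- the pairs of bounded height -/
def YB (U : Vs K n → Prop) (r : ι → ℕ) (B : ℝ) : Set (Pts K n × (ι → Ideal (𝓞 K))) :=
  {y ∈ YU U | ∏ l, hh l y ^ r l ≤ B}

theorem count (U : Vs K n → Prop) (r : ι → ℕ) (B : ℝ) (T : Fml K ι) :
    (YB U r (B / wt r T)).ncard = {y ∈ YB U r B | ∀ l, idl (T l) ∣ y.2 l}.ncard := by
  have hw : 0 < wt r T := lt_of_lt_of_le one_pos (one_le_wt r T)
  have h1 : {y ∈ YB U r B | ∀ l, idl (T l) ∣ y.2 l} =
      (fun y : Pts K n × (ι → Ideal (𝓞 K)) => (y.1, fun l => idl (T l) * y.2 l)) ''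
        YB U r (B / wt r T) := by
    have hprod : ∀ y : Pts K n × (ι → Ideal (𝓞 K)),
        ∏ l, hh l (y.1, fun l => idl (T l) * y.2 l) ^ r l = wt r T * ∏ l, hh l y ^ r l := by
      intro y
      unfold wt hh
      rw [← Finset.prod_mul_distrib]
      refine prod_congr rfl fun l _ => ?_
      simp only [map_mul, Nat.cast_mul]
      rw [← mul_pow]
      ring
    ext y
    constructor
    · rintro ⟨⟨⟨h1, h2⟩, h3⟩, h4⟩
      choose d hd using h4
      refine ⟨(y.1, d), ⟨⟨h1, fun l h => h2 l ?_⟩, ?_⟩, ?_⟩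
      · rw [hd l]
        have : d l = ⊥ := h
        rw [this, Ideal.mul_bot]
      · rw [le_div_iff₀ hw, mul_comm, ← hprod]
        have e : (((y.1, d) : Pts K n × (ι → Ideal (𝓞 K))).1, fun l => idl (T l) * ((y.1, d) : Pts K n × (ι → Ideal (𝓞 K))).2 l) = y :=
          Prod.ext rfl (funext fun l => (hd l).symm)
        rw [e]
        exact h3
      · exact Prod.ext rfl (funext fun l => (hd l).symm)
    · rintro ⟨y, ⟨⟨h1, h2⟩, h3⟩, rfl⟩
      refine ⟨⟨⟨h1, fun l => mul_ne_zero (idl_ne _) (h2 l)⟩, ?_⟩, fun l => dvd_mul_right _ _⟩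
      rw [hprod]
      rwa [le_div_iff₀ hw, mul_comm] at h3
  rw [h1, Set.ncard_image_of_injective]
  intro y z h
  have h2 := congrArg Prod.fst h
  have h3 := congrArg Prod.snd h
  refine Prod.ext h2 (funext fun l => ?_)
  exact mul_left_cancel₀ (idl_ne (T l)) (congrFun h3 l)

theorem sum_sg (𝔠 : ι → Ideal (𝓞 K)) (h : ∀ l, 𝔠 l ≠ ⊥) [Decidable (𝔠 = 1)] :
    ∑ T ∈ Fintype.piFinset (fun l => (D (𝔠 l)).powerset), sg T = if 𝔠 = 1 then 1 else 0 := by
  classical
  unfold sg
  rw [← Finset.prod_univ_sum (fun l => (D (𝔠 l)).powerset) (fun l T => (-1 : ℝ) ^ T.card)]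
  simp only [sum_sign (h _)]
  by_cases h1 : 𝔠 = 1
  · rw [if_pos h1]
    refine prod_eq_one fun l _ => ?_
    exact if_pos (congrFun h1 l)
  · rw [if_neg h1]
    obtain ⟨l, hl⟩ := Function.ne_iff.mp h1
    exact prod_eq_zero (mem_univ l) (if_neg hl)

theorem key (U : Vs K n → Prop) (r : ι → ℕ) (B : ℝ) (hfin : (YB U r B).Finite) :
    (({x : Pts K n | U (fun i => (x i).rep) ∧ ∏ i, (x i).mulHeight ^ r i ≤ B}.ncard : ℕ) : ℝ) =
      ∑' T : Fml K ι, sg T * ((YB U r (B / wt r T)).ncard : ℝ) := by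
  classical
  set Y := hfin.toFinset with hY
  have hYm : ∀ y, y ∈ Y ↔ y ∈ YB U r B := fun y => Set.Finite.mem_toFinset _
  set P : (ι → Ideal (𝓞 K)) → Finset (Fml K ι) :=
    fun 𝔠 => Fintype.piFinset (fun l => (D (𝔠 l)).powerset) with hP
  have hPm : ∀ (𝔠 : ι → Ideal (𝓞 K)), (∀ l, 𝔠 l ≠ ⊥) → ∀ T : Fml K ι,
      T ∈ P 𝔠 ↔ ∀ l, idl (T l) ∣ 𝔠 l := by
    intro 𝔠 h T
    rw [hP, Fintype.mem_piFinset]
    refine forall_congr' fun l => ?_
    rw [Finset.mem_powerset, idl_dvd_iff]
    exact ⟨fun h1 v hv => (mem_D (h l)).mp (h1 hv), fun h1 v hv => (mem_D (h l)).mpr (h1 v hv)⟩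
  have hcard : ∀ T : Fml K ι, ((YB U r (B / wt r T)).ncard : ℝ) =
      ∑ y ∈ Y, if T ∈ P y.2 then (1 : ℝ) else 0 := by
    intro T
    rw [count, Finset.sum_boole]
    congr 1
    rw [← Set.ncard_coe_finset]
    congr 1
    ext y
    simp only [Finset.coe_filter, Set.mem_ofPred_eq, hYm]
    constructor
    · rintro ⟨h1, h2⟩
      exact ⟨h1, (hPm y.2 h1.1.2 T).mpr h2⟩
    · rintro ⟨h1, h2⟩
      exact ⟨h1, (hPm y.2 h1.1.2 T).mp h2⟩
  set F := Y.biUnion fun y => P y.2 with hF
  rw [tsum_eq_sum (s := F)]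
  · calc (({x : Pts K n | U (fun i => (x i).rep) ∧ ∏ i, (x i).mulHeight ^ r i ≤ B}.ncard : ℕ) : ℝ)
        = ((Y.filter fun y => y.2 = 1).card : ℝ) := by
          congr 1
          rw [← Set.ncard_coe_finset]
          have e : ((Y.filter fun y => y.2 = 1 : Finset _) : Set (Pts K n × (ι → Ideal (𝓞 K)))) =
              (fun x : Pts K n => (x, (1 : ι → Ideal (𝓞 K)))) ''
                {x : Pts K n | U (fun i => (x i).rep) ∧ ∏ i, (x i).mulHeight ^ r i ≤ B} := by
            have hone : ∀ x : Pts K n, ∏ l, hh l (x, (1 : ι → Ideal (𝓞 K))) ^ r l =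
                ∏ i, (x i).mulHeight ^ r i := by
              intro x
              refine prod_congr rfl fun l _ => ?_
              unfold hh
              simp
            ext y
            simp only [Finset.coe_filter, Set.mem_ofPred_eq, hYm, Set.mem_image]
            constructor
            · rintro ⟨h1, h2⟩
              refine ⟨y.1, ⟨h1.1.1, ?_⟩, Prod.ext rfl h2.symm⟩
              rw [← hone]
              have h3 := h1.2
              have e2 : (y.1, (1 : ι → Ideal (𝓞 K))) = y := Prod.ext rfl h2.symm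
              rwa [e2]
            · rintro ⟨x, ⟨h1, h2⟩, rfl⟩
              exact ⟨⟨⟨h1, fun l => one_ne_zero⟩, by rw [hone]; exact h2⟩, rfl⟩
          rw [e, Set.ncard_image_of_injective]
          exact fun x y h => congrArg Prod.fst h
      _ = ∑ y ∈ Y, if y.2 = 1 then (1 : ℝ) else 0 := (Finset.sum_boole _ _).symm
      _ = ∑ y ∈ Y, ∑ T ∈ P y.2, sg T := by
          refine sum_congr rfl fun y hy => ?_
          exact (sum_sg y.2 ((hYm y).mp hy).1.2).symm
      _ = ∑ y ∈ Y, ∑ T ∈ F, sg T * (if T ∈ P y.2 then (1 : ℝ) else 0) := by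
          refine sum_congr rfl fun y hy => ?_
          have hsub : P y.2 ⊆ F := fun T hT => mem_biUnion.mpr ⟨y, hy, hT⟩
          rw [← Finset.sum_subset hsub (f := fun T => sg T * (if T ∈ P y.2 then (1 : ℝ) else 0))]
          · refine sum_congr rfl fun T hT => ?_
            rw [if_pos hT, mul_one]
          · intro T _ hT
            rw [if_neg hT, mul_zero]
      _ = ∑ T ∈ F, sg T * ((YB U r (B / wt r T)).ncard : ℝ) := by
          rw [Finset.sum_comm]
          refine sum_congr rfl fun T _ => ?_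
          rw [hcard, Finset.mul_sum]
  · intro T hT
    rw [hcard, Finset.sum_eq_zero, mul_zero]
    intro y hy
    rw [if_neg fun h => hT (mem_biUnion.mpr ⟨y, hy, h⟩)]

end Main

theorem mobk : S_MOBK := by
  intro K _ _ ι _ _ n r U R hcard hr hfin hlim
  set k := Fintype.card ι - 1 with hk
  set N : ℝ → ℝ := fun B => ((YB U r B).ncard : ℝ) with hN
  have hfin' : ∀ B : ℝ, (YB U r B).Finite := hfin
  have hlim' : Tendsto (fun B : ℝ => N B / (B * Real.log B ^ k)) atTop (𝓝 R) := hlim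
  have hmono : Monotone N := by
    intro B B' h
    simp only [hN]
    have h2 : YB U r B ⊆ YB U r B' := fun y hy => ⟨hy.1, hy.2.trans h⟩
    exact_mod_cast Set.ncard_le_ncard h2 (hfin' B')
  have h0 : ∀ B, 0 ≤ N B := fun B => Nat.cast_nonneg _
  have h1 : ∀ B, B < 1 → N B = 0 := by
    intro B hB
    simp only [hN]
    have e : YB U r B = ∅ := by
      refine Set.eq_empty_of_forall_notMem fun y hy => ?_
      have h2 : 1 ≤ ∏ l, hh l y ^ r l := by
        refine one_le_prod' _ fun l _ => one_le_pow₀ ?_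
        unfold hh
        exact one_le_mul_of_one_le_of_one_le (one_le_absNorm (hy.1.2 l)) (y.1 l).one_le_mulHeight
      linarith [hy.2]
    rw [e, Set.ncard_empty, Nat.cast_zero]
  obtain ⟨C, hC0, hC⟩ := growth hmono h0 h1 hlim'
  refine ⟨∑' T : Fml K ι, sg T * (R * (1 / wt r T)), ?_⟩
  have hmain : Tendsto (fun B : ℝ => ∑' T : Fml K ι, sg T * (N (B / wt r T) / (B * Real.log B ^ k))) atTop
      (𝓝 (∑' T : Fml K ι, sg T * (R * (1 / wt r T)))) := by
    refine tendsto_tsum_of_dominated_convergence (bound := fun T : Fml K ι => C * (1 / wt r T))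
      ((summable_wt hr).mul_left C) (fun T => (lim_div (one_le_wt r T) hlim').const_mul _) ?_
    filter_upwards [eventually_ge_atTop (Real.exp 1)] with B hB
    intro T
    have hBpos : 0 < B := lt_of_lt_of_le (Real.exp_pos 1) hB
    have hlogB : 1 ≤ Real.log B := by
      rw [Real.le_log_iff_exp_le hBpos]
      exact hB
    have hL : 0 < B * Real.log B ^ k := by positivity
    rw [Real.norm_eq_abs, abs_mul, abs_sg, one_mul, abs_of_nonneg (div_nonneg (h0 _) hL.le),
      div_le_iff₀ hL]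
    exact hC B (wt r T) hB (one_le_wt r T)
  refine hmain.congr fun B => ?_
  rw [key U r B (hfin' B), ← tsum_div_const]
  refine tsum_congr fun T => ?_
  simp only [hN, mul_div_assoc]

end Pool.Agent.Q280.EO
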